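import Pool.Agent.MP_a9d3bd_k.TC
import Pool.Agent.MP_a9d3bd_o.TD

/-! Slices of actions of the multiplicative group. -/

namespace Pool.Agent.MP_a9d3bd_k

open Matrix
open Pool.Agent.MP_a9d3bd_q (ak oext On Homog)
open Pool.Agent.MP_a9d3bd_ag (rv rm fr cF)
open Pool.Agent.MP_a9d3bd_s hiding Bf
open Pool.Agent.MP_a9d3bd_o

variable {K σ : Type} [Field K] [TC K] [Finite σ] {S : Fam K σ} {i j : σ → ℕ} {f : PFun K σ} {e : ℕ}

/-- The map ` (s, a, a') ↦ dg i j a a' s` from `prodF (S ∧ f = 1) (Gm K)` to `S ∧ f ≠ 0` is onto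
(extract a root of `f`) and proper: `a ^ e = f o` is a unit, so `a`, `a'` are integral
(Plc.int_of_root or V.val) and `s = dg i j a' a o`. Use pv_pull, pv_prod, pv_Gm. -/
theorem pv_scal (hS : LCl S) (st : DSt S i j) (hf : IsNatF f) (he : 0 < e)
    (hw : ∀ (Ω : Type) [Field Ω] [Algebra K Ω] (a a' : Ω) x, a * a' = 1 → S Ω x →
      f Ω (dg i j a a' x) = a ^ e * f Ω x)
    (h : PV (fun Ω _ _ x => S Ω x ∧ f Ω x = 1 : Fam K σ)) :
    PV (fun Ω _ _ x => S Ω x ∧ f Ω x ≠ 0 : Fam K σ) :=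
  have m := TD_main st hf he hw
  pv_pull (lcl_prodF (TD_lcl hS hf) (cl_lcl cl_Gm)) (hS.and (lcl_ne hf)) (TD_nat i j) m.1 m.2.1
    m.2.2 (pv_prod (TD_lcl hS hf) (cl_lcl cl_Gm) h pv_Gm)

/-- The same map is injective: pv_push, then canc_ne (after a reordering of the factors). -/
theorem pv_scal' (hS : LCl S) (st : DSt S i j) (hf : IsNatF f) (he : 0 < e)
    (hw : ∀ (Ω : Type) [Field Ω] [Algebra K Ω] (a a' : Ω) x, a * a' = 1 → S Ω x →
      f Ω (dg i j a a' x) = a ^ e * f Ω x)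
    (hp : ∀ (Ω : Type) [Field Ω] [Algebra K Ω] (a : Ω), a ^ e = 1 → a = 1)
    (h : PV (fun Ω _ _ x => S Ω x ∧ f Ω x ≠ 0 : Fam K σ)) :
    PV (fun Ω _ _ x => S Ω x ∧ f Ω x = 1 : Fam K σ) := by
  have m := TD_main st hf he hw
  have l1 := TD_lcl hS hf
  have l2 := lcl_prodF l1 (cl_lcl (cl_Gm (K := K)))
  have h1 := pv_push l2 (hS.and (lcl_ne hf)) (TD_nat i j) m.1 m.2.1 m.2.2
    (fun Ω _ _ _ t t' ht ht' H => by
      have g : t (Sum.inr true) * t (Sum.inr false) = 1 := ht.2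
      have g' : t' (Sum.inr true) * t' (Sum.inr false) = 1 := ht'.2
      have e1 := congrArg (f Ω) H
      rw [TD_m, TD_m, hw _ _ _ _ g ht.1.1, hw _ _ _ _ g' ht'.1.1, ht.1.2, ht'.1.2, mul_one,
        mul_one] at e1
      have e2 := hp Ω (t (Sum.inr true) * t' (Sum.inr false))
        (by rw [mul_pow, e1, ← mul_pow, g', one_pow])
      have e3 : t (Sum.inr true) = t' (Sum.inr true) :=
        mul_right_cancel₀ (right_ne_zero_of_mul_eq_one g') (e2.trans g'.symm)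
      have e4 : t (Sum.inr false) = t' (Sum.inr false) :=
        mul_left_cancel₀ (left_ne_zero_of_mul_eq_one g) (g.trans e2.symm)
      have e5 : fs t = fs t' := by
        rw [← TD_inv i j g (fs t), ← TD_inv i j g' (fs t')]
        exact (congrArg _ H).trans (by rw [e3, e4, TD_m])
      funext s
      rcases s with s | _ | _
      exacts [congrFun e5 s, e4, e3]) h
  intro τ _ T hT hI
  refine canc_ne (lcl_prodF l1 hT) (iv_iso (lcl_prodF l2 hT).ext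
    (lcl_prodF (lcl_prodF l1 hT) (cl_lcl cl_Gm)).ext
    (nat_proj (Sum.elim (Sum.elim (Sum.inl ∘ Sum.inl) Sum.inr) (Sum.inl ∘ Sum.inr)))
    (nat_proj (Sum.elim (Sum.elim (Sum.inl ∘ Sum.inl) Sum.inr) (Sum.inl ∘ Sum.inr)))
    (fun Ω _ _ _ t ht => ⟨⟨⟨ht.1.1, ht.2⟩, ht.1.2⟩, funext fun s => ?_⟩)
    (fun Ω _ _ _ t ht => ⟨⟨⟨ht.1.1, ht.2⟩, ht.1.2⟩, funext fun s => ?_⟩) (h1 τ T hT hI))
  all_goals rcases s with (s | s) | s <;> rfl

end Pool.Agent.MP_a9d3bd_k
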